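import Pool.Agent.helper17.MK.Spec

/-!
# mk, row XE: the expansions of the main functions
-/

set_option autoImplicit false

namespace Pool.Agent.MK

open Finset Real Pool.Agent.helper39.MT Pool.Agent.helper85.FC

theorem XE_c3 (K : Finset ℕ) : |c3 K| ≤ 1 := by
  unfold c3
  split_ifs
  · rw [abs_one]
  · rw [abs_zero]; exact zero_le_one

theorem XE (h1 : EM_stmt) (h2 : FX_stmt) (h3 : SX_stmt) : XE_stmt := by
  intro ι _ _ k pr ζ l₀ l w P P' m m' M Y₀ Y₁ Y₂ Y₃ hinj hpr hM hY0 hY1 hY2 hY3 hζ hζ2 hl0 hl hc3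
  have hpr1 : ∀ p, 1 ≤ pr p := fun p => le_trans one_le_two (hpr p)
  set D : ℝ := M * ∏ p, (1 + (k : ℝ) / ((pr p : ℝ) - 1)) with hD
  have hD0 : 0 ≤ D := by
    refine mul_nonneg hM (Finset.prod_nonneg fun p _ => ?_)
    have h4 : (2 : ℝ) ≤ (pr p : ℝ) := by exact_mod_cast hpr p
    have h5 : 0 ≤ (k : ℝ) / ((pr p : ℝ) - 1) := div_nonneg (Nat.cast_nonneg k) (by linarith)
    linarith
  have hDD : M ^ 2 * (∏ p, (1 + (k : ℝ) / ((pr p : ℝ) - 1))) ^ 2 = D * D := by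
    rw [hD]; ring
  have hY00 : 0 ≤ Y₀ := by linarith
  have hY10 : 0 ≤ Y₁ := by linarith
  have hY20 : 0 ≤ Y₂ := by linarith
  have hY30 : 0 ≤ Y₃ := by linarith
  have eF : Expn pr (fun _ i => i ≠ m ∧ i ≠ m') D 2 Y₀ (FF pr ζ) := by
    refine h2 ι k pr (fun _ i => i ≠ m ∧ i ≠ m') M Y₀ ζ hpr hM hζ ?_
    intro σ hσ
    refine ⟨(hζ2 σ hσ).1, fun p i hp => ⟨?_, ?_⟩⟩
    · rintro rfl
      exact ((hζ2 σ hσ).2 p).1 hp
    · rintro rfl
      exact ((hζ2 σ hσ).2 p).2 hp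
  have eF2 := h1 ι k pr _ _ D D 2 2 Y₀ Y₀ _ _ hpr1 hD0 hD0 one_le_two one_le_two hY00 hY00 eF eF
  have eS0 := h3 ι k pr l₀ (RLS.PP 1 w) m m' Y₁ hinj hl0
  have e36 := h1 ι k pr _ _ (D * D) 1 (3 * 2 * 2) 1 (Y₀ * Y₀) Y₁ _ _ hpr1 (mul_nonneg hD0 hD0)
    zero_le_one (by norm_num) le_rfl (mul_nonneg hY00 hY00) hY10 eF2 eS0
  have eP := h3 ι k pr l P m m Y₂ hinj hl
  have eP' := h3 ι k pr l P m' m' Y₂ hinj hl
  have eC := h3 ι k pr c3 P' m' m' Y₃ hinj (fun K hK => ⟨XE_c3 K, hc3 K hK⟩)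
  have e3 := h1 ι k pr _ _ 1 1 1 1 Y₂ Y₂ _ _ hpr1 zero_le_one zero_le_one le_rfl le_rfl
    hY20 hY20 eP eP'
  have e9 := h1 ι k pr _ _ (1 * 1) 1 (3 * 1 * 1) 1 (Y₂ * Y₂) Y₃ _ _ hpr1 (by norm_num) zero_le_one
    (by norm_num) le_rfl (mul_nonneg hY20 hY20) hY30 e3 eC
  have e108 := h1 ι k pr _ _ (D * D * 1) 1 (3 * (3 * 2 * 2) * 1) 1 (Y₀ * Y₀ * Y₁) Y₂ _ _ hpr1
    (mul_nonneg (mul_nonneg hD0 hD0) zero_le_one) zero_le_one (by norm_num) le_rfl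
    (mul_nonneg (mul_nonneg hY00 hY00) hY10) hY20 e36 eP'
  have e972 := h1 ι k pr _ _ (D * D * 1) (1 * 1 * 1) (3 * (3 * 2 * 2) * 1) (3 * (3 * 1 * 1) * 1)
    (Y₀ * Y₀ * Y₁) (Y₂ * Y₂ * Y₃) _ _ hpr1
    (mul_nonneg (mul_nonneg hD0 hD0) zero_le_one) (by norm_num) (by norm_num) (by norm_num)
    (mul_nonneg (mul_nonneg hY00 hY00) hY10) (mul_nonneg (mul_nonneg hY20 hY20) hY30) e36 e9
  have hDD0 : 0 ≤ D * D := mul_nonneg hD0 hD0
  rw [hDD]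
  refine ⟨?_, ?_, ?_, ?_, ?_, ?_, ?_, ?_⟩
  · have hf : (fun e => FF pr ζ e ^ 2 * SU pr l₀ (RLS.PP 1 w) m m' e) =
        fun e => FF pr ζ e * FF pr ζ e * SU pr l₀ (RLS.PP 1 w) m m' e := by
      funext e; ring
    rw [hf]
    refine e36.mono ?_ (le_of_eq (mul_one _)) hDD0 (by norm_num) (le_of_eq (by ring))
    rintro p i ((h | h) | h)
    · exact Or.inl h
    · exact Or.inl h
    · exact Or.inr h
  · refine eP.mono ?_ le_rfl zero_le_one le_rfl le_rfl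
    rintro p i ⟨h | h, h'⟩
    · exact ⟨h, h'⟩
    · exact ⟨h, h'⟩
  · refine eP'.mono ?_ le_rfl zero_le_one le_rfl le_rfl
    rintro p i ⟨h | h, h'⟩
    · exact ⟨h, h'⟩
    · exact ⟨h, h'⟩
  · refine eC.mono ?_ le_rfl zero_le_one le_rfl le_rfl
    rintro p i ⟨h | h, h'⟩
    · exact ⟨h, h'⟩
    · exact ⟨h, h'⟩
  · refine e3.mono ?_ (by norm_num) zero_le_one (by norm_num) (le_of_eq (by ring))
    rintro p i (⟨h, h'⟩ | ⟨h, h'⟩)
    · exact ⟨Or.inl (h.elim id id), h'⟩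
    · exact ⟨Or.inr (h.elim id id), h'⟩
  · refine e9.mono ?_ (by norm_num) zero_le_one (by norm_num) (le_of_eq (by ring))
    rintro p i ((⟨h, h'⟩ | ⟨h, h'⟩) | ⟨h, h'⟩)
    · exact ⟨Or.inl (h.elim id id), Finset.mem_union_left _ h'⟩
    · exact ⟨Or.inr (h.elim id id), Finset.mem_union_left _ h'⟩
    · exact ⟨Or.inr (h.elim id id), Finset.mem_union_right _ h'⟩
  · have hf : XA pr ζ l₀ l w P m m' =
        fun e => FF pr ζ e * FF pr ζ e * SU pr l₀ (RLS.PP 1 w) m m' e * SU pr l P m' m' e := by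
      funext e; unfold XA; ring
    rw [hf]
    exact e108.mono (fun _ _ _ => trivial) (le_of_eq (by ring)) hDD0 (by norm_num)
      (le_of_eq (by ring))
  · have hf : XB pr ζ l₀ l w P P' m m' =
        fun e => FF pr ζ e * FF pr ζ e * SU pr l₀ (RLS.PP 1 w) m m' e *
          (SU pr l P m m e * SU pr l P m' m' e * SU pr c3 P' m' m' e) := by
      funext e; unfold XB; ring
    rw [hf]
    exact e972.mono (fun _ _ _ => trivial) (le_of_eq (by ring)) hDD0 (by norm_num)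
      (le_of_eq (by ring))

end Pool.Agent.MK
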